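import Mathlib

set_option autoImplicit false

namespace Pool.Agent.Results.MP_c44e76_an.Inverse

open Filter Topology Set Uniformity

variable {X : Type*}

/-- the inverse relation. -/
def inv (G : Set (X × X)) : Set (X × X) := {p | (p.2, p.1) ∈ G}

/-- `y` is a trajectory of the relation `G`. -/
def Traj (G : Set (X × X)) (y : ℕ → X) : Prop := ∀ n, (y n, y (n + 1)) ∈ G

/-- `(V,2)`-pseudo-orbit: a sequence in `D(G)` with `(x (n+1), y) ∈ V` for some `y ∈ G(x n)`. -/
def Pseudo2 (G V : Set (X × X)) (x : ℕ → X) : Prop :=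
  (∀ n, ∃ y, (x n, y) ∈ G) ∧ ∀ n, ∃ y, (x n, y) ∈ G ∧ (x (n + 1), y) ∈ V

/-- the `(2,2)`-shadowing property, for the uniformity of all neighbourhoods of the diagonal. -/
def Shadow22 [TopologicalSpace X] (G : Set (X × X)) : Prop :=
  ∀ U ∈ 𝓝ˢ (diagonal X), ∃ V ∈ 𝓝ˢ (diagonal X), ∀ x : ℕ → X, Pseudo2 G V x →
    ∃ y : ℕ → X, Traj G y ∧ ∀ n, (x n, y n) ∈ U

theorem result [TopologicalSpace X] [CompactSpace X] [T2Space X] (G : Set (X × X))
    (hG : IsClosed G) (hD : diagonal X ⊆ G) (h : Shadow22 G) : Shadow22 (inv G) := by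
  letI : UniformSpace X := uniformSpaceOfCompactR1
  have hu : 𝓝ˢ (diagonal X) = 𝓤 X := nhdsSet_diagonal_eq_uniformity
  unfold Shadow22 at h ⊢
  rw [hu] at h ⊢
  intro U hU
  obtain ⟨U1, ⟨hU1, hU1c⟩, hU1U⟩ := (uniformity_hasBasis_closed (α := X)).mem_iff.1 hU
  obtain ⟨U2, hU2, hU2s, hU21⟩ := comp_symm_mem_uniformity_sets hU1
  obtain ⟨V, hV, hVs⟩ := h U2 hU2
  obtain ⟨W, hW, hWs, hWV⟩ := symm_of_uniformity (inter_mem hV hU2)
  refine ⟨W, hW, fun x hx => ?_⟩
  choose y hy using hx.2
  have fin : ∀ N : ℕ, ∃ w : ℕ → X, (∀ j ≤ N, (x j, w j) ∈ U1) ∧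
      ∀ j < N, (w (j + 1), w j) ∈ G := by
    intro N
    obtain ⟨z, hz, hzU⟩ := hVs (fun i => if i < N then y (N - 1 - i) else x 0) (by
      have k : ∀ n, ∃ t, ((if n < N then y (N - 1 - n) else x 0), t) ∈ G ∧
          ((if n + 1 < N then y (N - 1 - (n + 1)) else x 0), t) ∈ V := by
        intro n
        by_cases h1 : n + 1 < N
        · have h0 : n < N := by omega
          refine ⟨x (N - 1 - n), ?_, ?_⟩
          · simpa [h0, inv] using (hy (N - 1 - n)).1
          · have := (hy (N - 1 - (n + 1))).2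
            have e : N - 1 - (n + 1) + 1 = N - 1 - n := by omega
            rw [e] at this
            simpa [h1] using (hWV (hWs.symm _ _ this)).1
        · by_cases h0 : n < N
          · have e : N - 1 - n = 0 := by omega
            refine ⟨x 0, ?_, ?_⟩
            · simpa [h0, e, inv] using (hy 0).1
            · simpa [h1] using refl_mem_uniformity hV
          · refine ⟨x 0, ?_, ?_⟩
            · simpa [h0] using hD (mem_diagonal (x 0))
            · simpa [h1] using refl_mem_uniformity hV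
      exact ⟨fun n => (k n).imp fun t ht => ht.1, k⟩)
    refine ⟨fun j => z (N - j), fun j hj => ?_, fun j hj => ?_⟩
    · rcases Nat.eq_zero_or_pos j with rfl | hj0
      · have := hzU N
        simp only [lt_irrefl, if_false] at this
        exact hU21 ⟨x 0, refl_mem_uniformity hU2, by simpa using this⟩
      · have := hzU (N - j)
        have h0 : N - j < N := by omega
        have e : N - 1 - (N - j) = j - 1 := by omega
        simp only [h0, if_true, e] at this
        have h2 := (hy (j - 1)).2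
        have e2 : j - 1 + 1 = j := by omega
        rw [e2] at h2
        exact hU21 ⟨y (j - 1), (hWV h2).2, this⟩
    · have := hz (N - (j + 1))
      have e : N - (j + 1) + 1 = N - j := by omega
      rw [e] at this
      exact this
  let K : ℕ → Set (ℕ → X) := fun N =>
    {w | (∀ j ≤ N, (x j, w j) ∈ U1) ∧ ∀ j < N, (w (j + 1), w j) ∈ G}
  have hKc : ∀ N, IsClosed (K N) := by
    intro N
    have : K N = (⋂ j, ⋂ _ : j ≤ N, (fun w : ℕ → X => (x j, w j)) ⁻¹' U1) ∩
        ⋂ j, ⋂ _ : j < N, (fun w : ℕ → X => (w (j + 1), w j)) ⁻¹' G := by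
      ext w; simp [K]
    rw [this]
    refine IsClosed.inter (isClosed_iInter fun j => isClosed_iInter fun _ => ?_)
      (isClosed_iInter fun j => isClosed_iInter fun _ => ?_)
    · exact hU1c.preimage (by fun_prop)
    · exact hG.preimage (by fun_prop)
  obtain ⟨w, hw⟩ := IsCompact.nonempty_iInter_of_sequence_nonempty_isCompact_isClosed K
    (fun N w hw => ⟨fun j hj => hw.1 j (by omega), fun j hj => hw.2 j (by omega)⟩)
    (fun N => fin N) (hKc 0).isCompact hKc
  rw [mem_iInter] at hw
  exact ⟨w, fun n => (hw (n + 1)).2 n (by omega), fun n => hU1U ((hw n).1 n le_rfl)⟩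

end Pool.Agent.Results.MP_c44e76_an.Inverse
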